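import Mathlib
import Pool.Agent.H63R3.Cert5

set_option autoImplicit false

namespace Pool.Agent.Results.MP_3f7fac_co.LinearBound

open Pool.Agent.H63R3.Sep

/-- For every `d ≥ 2`: at most `n` nodes of the graph of a simple `d`-polytope can be totally
separated by `n` nodes; this bound is attained for all `n ≥ 2 ^ (2 * d - 3)` and for all
`n = a * 2 ^ (d - 2) + j * (2 ^ (d - 1) - 1)` with `a ≥ 2` and `j ≥ 0`; and for every `n` more
than `n - 2 ^ (d - 1)` nodes can be totally separated by `n` nodes. -/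
theorem result (d : ℕ) (hd : 2 ≤ d) :
    (∀ n s : ℕ, 1 ≤ n → Attained d n s → s ≤ n) ∧
    (∀ n : ℕ, 2 ^ (2 * d - 3) ≤ n → Attained d n n) ∧
    (∀ a j : ℕ, 2 ≤ a → Attained d (a * 2 ^ (d - 2) + j * (2 ^ (d - 1) - 1))
      (a * 2 ^ (d - 2) + j * (2 ^ (d - 1) - 1))) ∧
    (∀ n : ℕ, ∃ s, Attained d n s ∧ n < s + 2 ^ (d - 1)) := by
  obtain ⟨m, rfl⟩ : ∃ m, d = m + 2 := ⟨d - 2, by omega⟩
  refine ⟨?_, ?_, ?_, ?_⟩
  · rintro n s hn ⟨S, hS, M, N, hM, hN, h⟩
    rw [← hM, ← hN]
    exact upper_bound (by omega) S hS M N (by omega) h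
  · intro n hn
    apply attained_large m n
    have h1 : 2 * (m + 2) - 3 = 2 * m + 1 := by omega
    rwa [h1] at hn
  · intro a j ha
    exact attained_iter m a j ha
  · intro n
    exact attained_near m n

end Pool.Agent.Results.MP_3f7fac_co.LinearBound
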